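import Pool.Agent.Lib.MP_6ff8d9_an_h19.BaireOf

/-!
# The pairing inequality, the coefficient bound, and holomorphy of the sum (T0.2 - T0.4)
-/

open Metric Filter Topology

namespace Pool.Agent.Lib.MP_6ff8d9_an

noncomputable section

namespace H19

variable {n : ℕ}

/-! ### discrete averages -/

/-- the `N`-th root of unity -/
def rt (N : ℕ) : ℂ := Complex.exp (2 * Real.pi * Complex.I / N)

lemma rt_ne_zero (N : ℕ) : rt N ≠ 0 := Complex.exp_ne_zero _

lemma norm_rt (N : ℕ) : ‖rt N‖ = 1 := by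
  have : rt N = Complex.exp (((2 * Real.pi / N : ℝ) : ℂ) * Complex.I) := by
    unfold rt
    congr 1
    push_cast
    ring
  rw [this, Complex.norm_exp_ofReal_mul_I]

/-- the average of the character `m` over the `N`-torsion points -/
def av (N : ℕ) (m : Fin n → ℤ) : ℂ := ∏ j, ((∑ k ∈ Finset.range N, (rt N ^ (m j)) ^ k) / N)

lemma norm_av_le (N : ℕ) (m : Fin n → ℤ) : ‖av N m‖ ≤ 1 := by
  unfold av
  rw [norm_prod]
  refine Finset.prod_le_one (fun j _ => norm_nonneg _) fun j _ => ?_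
  rw [norm_div, Complex.norm_natCast]
  have h1 : ‖∑ k ∈ Finset.range N, (rt N ^ (m j)) ^ k‖ ≤ N := by
    refine (norm_sum_le _ _).trans ?_
    have : ∀ k ∈ Finset.range N, ‖(rt N ^ (m j)) ^ k‖ = 1 := by
      intro k _
      rw [norm_pow, norm_zpow, norm_rt, one_zpow, one_pow]
    rw [Finset.sum_congr rfl this]
    simp
  exact div_le_one_of_le₀ h1 (Nat.cast_nonneg _)

lemma av_factor_eq_zero {N : ℕ} {m : ℤ} (h0 : m ≠ 0) (hN : m.natAbs < N) :
    (∑ k ∈ Finset.range N, (rt N ^ m) ^ k) = 0 := by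
  have hN0 : N ≠ 0 := by omega
  have hprim : IsPrimitiveRoot (rt N) N := Complex.isPrimitiveRoot_exp N hN0
  have h1 : rt N ^ m ≠ 1 := by
    intro h
    rw [hprim.zpow_eq_one_iff_dvd] at h
    have h2 := Int.natAbs_dvd_natAbs.2 h
    rw [Int.natAbs_natCast] at h2
    exact absurd (Nat.le_of_dvd (Int.natAbs_pos.2 h0) h2) (by omega)
  rw [geom_sum_eq h1]
  have h3 : (rt N ^ m) ^ N = 1 := by
    rw [← zpow_natCast, ← zpow_mul, mul_comm, zpow_mul, zpow_natCast, hprim.pow_eq_one, one_zpow]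
  rw [h3, sub_self, zero_div]

lemma tendsto_av (m : Fin n → ℤ) :
    Tendsto (fun N : ℕ => av N m) atTop (𝓝 (if m = 0 then 1 else 0)) := by
  refine tendsto_const_nhds.congr' ?_
  filter_upwards [eventually_gt_atTop (Finset.univ.sup fun j => (m j).natAbs),
    eventually_gt_atTop 0] with N hN hN0
  by_cases h0 : m = 0
  · subst h0
    rw [if_pos rfl]
    unfold av
    have : (N : ℂ) ≠ 0 := by exact_mod_cast hN0.ne'
    simp [this]
  · rw [if_neg h0]
    obtain ⟨j, hj⟩ : ∃ j, m j ≠ 0 := by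
      by_contra hcon
      push Not at hcon
      exact h0 (funext hcon)
    refine (Finset.prod_eq_zero (Finset.mem_univ j) ?_).symm
    rw [av_factor_eq_zero hj, zero_div]
    exact lt_of_le_of_lt (Finset.le_sup (f := fun j => (m j).natAbs) (Finset.mem_univ j)) hN

/-- the torsion point -/
def ang (N : ℕ) (x : Fin n → ℕ) : Fin n → ℝ := fun j => 2 * Real.pi * x j / N

lemma exp_ang (N : ℕ) (x : Fin n → ℕ) (γ : Fin n → ℤ) :
    Complex.exp (Complex.I * ((∑ j, (γ j : ℝ) * ang N x j : ℝ) : ℂ)) =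
      ∏ j, (rt N ^ (γ j)) ^ (x j) := by
  have h : ∀ j, (rt N ^ (γ j)) ^ (x j) =
      Complex.exp (Complex.I * (((γ j : ℝ) * ang N x j : ℝ) : ℂ)) := by
    intro j
    rw [rt, ← Complex.exp_int_mul, ← Complex.exp_nat_mul]
    congr 1
    unfold ang
    push_cast
    ring
  simp only [h]
  rw [← Complex.exp_sum, ← Finset.mul_sum]
  congr 1
  push_cast
  rfl

/-- the point of the torus of radii `s` -/
def pt (s : Fin n → ℝ) (N : ℕ) (x : Fin n → ℕ) : Fin n → ℂ := fun j => (s j : ℂ) * rt N ^ x j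

lemma pt_mem {s : Fin n → ℝ} (hs1 : ∑ j, s j ^ 2 < (n : ℝ)) (N : ℕ)
    (x : Fin n → ℕ) : pt s N x ∈ Dn n := by
  have : ∀ j, ‖pt s N x j‖ ^ 2 = s j ^ 2 := by
    intro j
    rw [pt, norm_mul, norm_pow, norm_rt, one_pow, mul_one, Complex.norm_real, Real.norm_eq_abs,
      sq_abs]
  change ∑ j, ‖pt s N x j‖ ^ 2 < (n : ℝ)
  simp only [this]
  exact hs1

lemma mon_pt (s : Fin n → ℝ) (N : ℕ) (x : Fin n → ℕ) (δ : Fin n → ℕ) :
    mon δ (pt s N x) = mon δ (fun j => (s j : ℂ)) * ∏ j, (rt N ^ ((δ j : ℕ) : ℤ)) ^ x j := by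
  unfold mon pt
  rw [← Finset.prod_mul_distrib]
  refine Finset.prod_congr rfl fun j _ => ?_
  rw [mul_pow, zpow_natCast, ← pow_mul, ← pow_mul, mul_comm (x j)]

lemma sum_char (N : ℕ) (m : Fin n → ℤ) :
    (∑ x ∈ Fintype.piFinset (fun _ : Fin n => Finset.range N), ∏ j, (rt N ^ (m j)) ^ (x j)) /
      (N : ℂ) ^ n = av N m := by
  unfold av
  rw [← Finset.prod_univ_sum, Finset.prod_div_distrib, Finset.prod_const, Finset.card_univ,
    Fintype.card_fin]

theorem pairing (n : ℕ) : Pairing n := by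
  intro a ha W hW s hs hs1
  set c : (Fin n → ℕ) → ℂ := fun δ => a δ * mon δ (fun j => (s j : ℂ)) with hc
  have hsD : (fun j => (s j : ℂ)) ∈ Dn n := by
    change ∑ j, ‖(s j : ℂ)‖ ^ 2 < (n : ℝ)
    simp only [Complex.norm_real, Real.norm_eq_abs, sq_abs]
    exact hs1
  have hcs : Summable c := (ha.2 _ hsD).1
  let A : ℕ → ℂ := fun N =>
    (∑ x ∈ Fintype.piFinset (fun _ : Fin n => Finset.range N),
      evT W (ang N x) * fn a (pt s N x)) / (N : ℂ) ^ n
  have hA0 : ∀ N, 0 ≤ (A N).re := by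
    intro N
    have e : A N = (((∑ x ∈ Fintype.piFinset (fun _ : Fin n => Finset.range N),
      evT W (ang N x) * fn a (pt s N x)) : ℂ)) / (((N : ℝ) ^ n : ℝ) : ℂ) := by
      simp only [A]
      push_cast
      rfl
    rw [e, Complex.div_ofReal_re, Complex.re_sum]
    refine div_nonneg (Finset.sum_nonneg fun x _ => ?_) (by positivity)
    rw [Complex.mul_re, (hW _).2, zero_mul, sub_zero]
    exact mul_nonneg (hW _).1 (ha.2 _ (pt_mem hs1 N x)).2
  -- the value
  have hA1 : ∀ N, A N = W.sum fun γ w => w * ∑' δ : Fin n → ℕ, c δ * av N (γ + fun j => (δ j : ℤ)) := by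
    intro N
    have h1 : ∀ x : Fin n → ℕ, ∀ γ : Fin n → ℤ, HasSum
        (fun δ : Fin n → ℕ => c δ * ∏ j, (rt N ^ ((γ + fun j => (δ j : ℤ)) j)) ^ (x j))
        ((∏ j, (rt N ^ (γ j)) ^ (x j)) * fn a (pt s N x)) := by
      intro x γ
      have h2 := ((ha.2 _ (pt_mem hs1 N x)).1.hasSum).mul_left (∏ j, (rt N ^ (γ j)) ^ (x j))
      refine h2.congr_fun ?_
      intro δ
      rw [mon_pt, hc]
      have : ∏ j, (rt N ^ ((γ + fun j => (δ j : ℤ)) j)) ^ (x j) =
          (∏ j, (rt N ^ (γ j)) ^ (x j)) * ∏ j, (rt N ^ ((δ j : ℕ) : ℤ)) ^ x j := by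
        rw [← Finset.prod_mul_distrib]
        refine Finset.prod_congr rfl fun j _ => ?_
        rw [Pi.add_apply, zpow_add₀ (rt_ne_zero N), mul_pow]
      rw [this]
      ring
    have h3 : ∀ γ : Fin n → ℤ, HasSum (fun δ : Fin n → ℕ => c δ * av N (γ + fun j => (δ j : ℤ)))
        ((∑ x ∈ Fintype.piFinset (fun _ : Fin n => Finset.range N),
          (∏ j, (rt N ^ (γ j)) ^ (x j)) * fn a (pt s N x)) / (N : ℂ) ^ n) := by
      intro γ
      have h4 := (hasSum_sum (s := Fintype.piFinset (fun _ : Fin n => Finset.range N))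
        fun x _ => h1 x γ).div_const ((N : ℂ) ^ n)
      refine h4.congr_fun ?_
      intro δ
      rw [← Finset.mul_sum, mul_div_assoc, sum_char]
    have h5 : ∀ x, evT W (ang N x) = W.sum fun γ w => w * ∏ j, (rt N ^ (γ j)) ^ (x j) := by
      intro x
      unfold evT
      exact Finsupp.sum_congr fun γ _ => by rw [exp_ang]
    simp only [A, h5, (h3 _).tsum_eq, Finsupp.sum]
    simp only [Finset.sum_mul, mul_div_assoc', Finset.mul_sum]
    rw [Finset.sum_comm, Finset.sum_div]
    refine Finset.sum_congr rfl fun γ _ => ?_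
    congr 1
    refine Finset.sum_congr rfl fun x _ => ?_
    ring
  -- the limit
  have hlim : Tendsto A atTop (𝓝 (W.sum fun γ w => w * ext a (-γ) * ((∏ j, s j ^ (-γ j) : ℝ) : ℂ))) := by
    have h1 : ∀ γ : Fin n → ℤ, Tendsto
        (fun N : ℕ => ∑' δ : Fin n → ℕ, c δ * av N (γ + fun j => (δ j : ℤ))) atTop
        (𝓝 (∑' δ : Fin n → ℕ, c δ * if (γ + fun j => (δ j : ℤ)) = 0 then 1 else 0)) := by
      intro γ
      refine tendsto_tsum_of_dominated_convergence (bound := fun δ => ‖c δ‖) hcs.norm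
        (fun δ => tendsto_const_nhds.mul (tendsto_av _)) (Eventually.of_forall fun N δ => ?_)
      rw [norm_mul]
      exact mul_le_of_le_one_right (norm_nonneg _) (norm_av_le _ _)
    have h2 : ∀ γ : Fin n → ℤ, (∑' δ : Fin n → ℕ, c δ * if (γ + fun j => (δ j : ℤ)) = 0 then 1 else 0) =
        ext a (-γ) * ((∏ j, s j ^ (-γ j) : ℝ) : ℂ) := by
      intro γ
      by_cases h0 : ∀ j, 0 ≤ (-γ) j
      · rw [tsum_eq_single (fun j => ((-γ) j).toNat)]
        · have h3 : (γ + fun j => ((((-γ) j).toNat : ℕ) : ℤ)) = 0 := by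
            funext j
            rw [Pi.add_apply, Int.toNat_of_nonneg (h0 j)]
            simp
          rw [if_pos h3, mul_one, hc]
          unfold ext
          rw [if_pos h0]
          simp only
          congr 1
          unfold mon
          push_cast
          refine Finset.prod_congr rfl fun j _ => ?_
          have h4 := Int.toNat_of_nonneg (h0 j)
          rw [← zpow_natCast, h4]
          rfl
        · intro δ hδ
          rw [if_neg, mul_zero]
          intro h5
          apply hδ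
          funext j
          have h6 := congrFun h5 j
          simp only [Pi.add_apply, Pi.zero_apply] at h6
          have h7 : (-γ) j = (δ j : ℤ) := by
            rw [Pi.neg_apply]; linarith
          rw [h7, Int.toNat_natCast]
      · have h3 : ∀ δ : Fin n → ℕ, (c δ * if (γ + fun j => (δ j : ℤ)) = 0 then 1 else 0) = 0 := by
          intro δ
          rw [if_neg, mul_zero]
          intro h5
          apply h0
          intro j
          have h6 := congrFun h5 j
          simp only [Pi.add_apply, Pi.zero_apply] at h6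
          rw [Pi.neg_apply]
          have : (0 : ℤ) ≤ δ j := Int.natCast_nonneg _
          linarith
        simp only [h3, tsum_zero]
        unfold ext
        rw [if_neg h0, zero_mul]
    have h3 : Tendsto (fun N => W.sum fun γ w => w * ∑' δ : Fin n → ℕ, c δ * av N (γ + fun j => (δ j : ℤ)))
        atTop (𝓝 (W.sum fun γ w => w * (ext a (-γ) * ((∏ j, s j ^ (-γ j) : ℝ) : ℂ)))) := by
      unfold Finsupp.sum
      refine tendsto_finsetSum _ fun γ _ => ?_
      have h4 := h1 γ
      rw [h2 γ] at h4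
      exact tendsto_const_nhds.mul h4
    have e : A = fun N => W.sum fun γ w => w * ∑' δ : Fin n → ℕ, c δ * av N (γ + fun j => (δ j : ℤ)) :=
      funext hA1
    rw [e]
    simpa only [mul_assoc] using h3
  have h := (Complex.continuous_re.tendsto _).comp hlim
  exact ge_of_tendsto' h hA0

end H19

/-- T0.3: pairing with a nonnegative trigonometric polynomial on a torus inside the ball -/
theorem pairing_nonneg {n : ℕ} {a : (Fin n → ℕ) → ℂ} (ha : a ∈ KB n)
    (W : (Fin n → ℤ) →₀ ℂ) (hW : ∀ θ : Fin n → ℝ, 0 ≤ (evT W θ).re ∧ (evT W θ).im = 0)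
    (s : Fin n → ℝ) (hs : ∀ j, 0 < s j) (hs1 : ∑ j, s j ^ 2 < (n : ℝ)) :
    0 ≤ (W.sum fun γ c => c * ext a (-γ) * ((∏ j, s j ^ (-γ j) : ℝ) : ℂ)).re :=
  H19.pairing n ha W hW s hs hs1

/-- T0.4 -/
theorem KB_coef_le {n : ℕ} (hn : 1 ≤ n) {a : (Fin n → ℕ) → ℂ} (ha : a ∈ KB n) (γ : Fin n → ℕ) :
    ‖a γ‖ ≤ 2 :=
  H19.norm_le_two_of_CB hn (H19.KB_subset_CB (H19.pairing n) ha) γ

end

end Pool.Agent.Lib.MP_6ff8d9_an
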