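import Pool.Agent.Lib.MP_6ff8d9_an_h19.SeriesA

/-!
# Holomorphy of the sum of the power series (T0.2)
-/

open Metric Filter Topology

namespace Pool.Agent.Lib.MP_6ff8d9_an

noncomputable section

namespace H19

variable {n : ℕ}

lemma differentiable_mon_sc (γ : Fin n → ℕ) : Differentiable ℂ fun z : Cn n => mon γ (sc n z) := by
  unfold mon sc
  fun_prop

/-- Cauchy estimate for the derivative of one term -/
lemma norm_fderiv_le {f : Cn n → ℂ} (hf : Differentiable ℂ f) {C d : ℝ} (hd : 0 < d) (hC : 0 ≤ C)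
    {z : Cn n} (h : ∀ w : Cn n, ‖w - z‖ ≤ d → ‖f w‖ ≤ C) : ‖fderiv ℂ f z‖ ≤ C / d := by
  refine ContinuousLinearMap.opNorm_le_of_unit_norm (𝕜 := ℂ) (by positivity) fun v hv => ?_
  have h1 : HasDerivAt (fun t : ℂ => f (z + t • v)) (fderiv ℂ f z v) 0 := by
    have h2 : HasDerivAt (fun t : ℂ => z + t • v) v 0 := by
      simpa using ((hasDerivAt_id (0 : ℂ)).smul_const v).const_add z
    have h3 : HasFDerivAt f (fderiv ℂ f z) (z + (0 : ℂ) • v) := by
      simpa using (hf z).hasFDerivAt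
    exact h3.comp_hasDerivAt 0 h2
  rw [← h1.deriv]
  refine Complex.norm_deriv_le_of_forall_mem_sphere_norm_le hd ?_ fun t ht => ?_
  · refine Differentiable.diffContOnCl ?_
    exact hf.comp ((differentiable_const z).add (differentiable_id.smul_const v))
  · refine h _ ?_
    have h4 : ‖t‖ = d := by simpa using ht
    rw [add_sub_cancel_left, norm_smul, hv, mul_one, h4]

lemma differentiableOn_fn {a : (Fin n → ℕ) → ℂ} (hn : 1 ≤ n) (ha : a ∈ CB n) :
    DifferentiableOn ℂ (fun z : Cn n => fn a (sc n z)) (ball 0 1) := by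
  intro z₀ hz₀
  have hn0 : (0 : ℝ) < n := by exact_mod_cast hn
  rw [mem_ball_zero_iff] at hz₀
  obtain ⟨ρ, hρ1, hρ2⟩ := exists_between hz₀
  obtain ⟨ρ', hρ'1, hρ'2⟩ := exists_between hρ2
  obtain ⟨r, hr1, hr2⟩ := exists_between hρ'2
  have hρ0 : 0 < ρ := lt_of_le_of_lt (norm_nonneg _) hρ1
  have hr0 : 0 < r := by linarith
  have hd : 0 < ρ' - ρ := by linarith
  have hterm : ∀ γ : Fin n → ℕ, Differentiable ℂ fun z : Cn n => a γ * mon γ (sc n z) :=
    fun γ => (differentiable_mon_sc γ).const_mul _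
  have hbd : ∀ (γ : Fin n → ℕ) (w : Cn n), ‖w‖ ≤ ρ' → ‖a γ * mon γ (sc n w)‖ ≤ 2 * ∏ j, r ^ γ j := by
    intro γ w hw
    refine dom ha hr0 ?_ γ
    rw [sum_sc]
    have h1 : ‖w‖ / r < 1 := (div_lt_one hr0).2 (by linarith)
    have h2 : 0 ≤ ‖w‖ / r := by positivity
    have h3 : (‖w‖ / r) ^ 2 < 1 := by nlinarith
    nlinarith
  have key := hasFDerivAt_tsum_of_isPreconnected (𝕜 := ℂ)
    (f := fun (γ : Fin n → ℕ) (z : Cn n) => a γ * mon γ (sc n z))
    (f' := fun γ z => fderiv ℂ (fun z : Cn n => a γ * mon γ (sc n z)) z)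
    (u := fun γ : Fin n → ℕ => (2 * ∏ j, r ^ γ j) / (ρ' - ρ))
    (s := ball 0 ρ) (x₀ := z₀) (x := z₀)
    (((summable_geom n hr0.le hr2).mul_left 2).div_const _) isOpen_ball
    (convex_ball _ _).isPreconnected (fun γ x _ => (hterm γ x).hasFDerivAt) (fun γ x hx => ?_)
    (by simpa using hρ1) (summable_of_CB ha (sc_mem hn (by simpa using hz₀))) (by simpa using hρ1)
  · exact key.differentiableAt.differentiableWithinAt
  · refine norm_fderiv_le (hterm γ) hd (by positivity) fun w hw => hbd γ w ?_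
    rw [mem_ball_zero_iff] at hx
    have : ‖w‖ ≤ ‖w - x‖ + ‖x‖ := by
      simpa using norm_add_le (w - x) x
    linarith

lemma fn_zero (a : (Fin n → ℕ) → ℂ) : fn a (0 : Fin n → ℂ) = a 0 := by
  unfold fn
  rw [tsum_eq_single 0]
  · simp [mon]
  · intro γ hγ
    obtain ⟨j, hj⟩ : ∃ j, γ j ≠ 0 := by
      by_contra hcon
      push Not at hcon
      exact hγ (funext hcon)
    have : mon γ (0 : Fin n → ℂ) = 0 := by
      unfold mon
      exact Finset.prod_eq_zero (Finset.mem_univ j) (by simp [hj])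
    rw [this, mul_zero]

theorem mem_NB (hn : 1 ≤ n) {a : (Fin n → ℕ) → ℂ} (ha : a ∈ KB n) :
    (fun z : Cn n => fn a (sc n z)) ∈ NB n := by
  have hC := KB_subset_CB (pairing n) ha
  have hD := differentiableOn_fn hn hC
  have h0 : fn a (sc n 0) = 1 := by
    have : sc n (0 : Cn n) = 0 := by
      funext j
      simp [sc]
    rw [this, fn_zero, ha.1]
  refine ⟨hD, ?_, h0⟩
  intro z hz
  have h1 : ∀ w ∈ ball (0 : Cn n) 1, 0 ≤ (fn a (sc n w)).re := fun w hw => (ha.2 _ (sc_mem hn hw)).2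
  rcases (h1 z hz).lt_or_eq with h | h
  · exact h
  · exfalso
    let φ : Cn n → ℂ := fun w => Complex.exp (-fn a (sc n w))
    have hφ : DifferentiableOn ℂ φ (ball 0 1) := hD.neg.cexp
    have hmax : IsMaxOn (norm ∘ φ) (ball 0 1) z := by
      intro w hw
      simp only [Set.mem_ofPred_eq, Function.comp, φ, Complex.norm_exp, Complex.neg_re]
      refine Real.exp_le_exp.2 ?_
      rw [← h]
      linarith [h1 w hw]
    have h2 := Complex.norm_eqOn_of_isPreconnected_of_isMaxOn (convex_ball (0 : Cn n) 1).isPreconnected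
      isOpen_ball hφ hz hmax (mem_ball_self one_pos)
    simp only [Function.comp, Function.const, φ, Complex.norm_exp, Complex.neg_re] at h2
    have h3 := Real.exp_injective h2
    rw [h0, ← h] at h3
    norm_num at h3

end H19

/-- T0.2 -/
theorem NB_of_KB {n : ℕ} (hn : 1 ≤ n) {a : (Fin n → ℕ) → ℂ} (ha : a ∈ KB n) :
    (fun z : Cn n => fn a (fun j => (Real.sqrt n : ℂ) * z j)) ∈ NB n :=
  H19.mem_NB hn ha

end

end Pool.Agent.Lib.MP_6ff8d9_an
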