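import Pool.Agent.Lib.MP_6ff8d9_an_h19.GoodF
import Pool.Agent.Lib.MP_6ff8d9_an_h19.SeriesB
import Pool.Agent.Lib.MP_6ff8d9_an_h21.Series1

/-!
# Final form of the Baire category reduction (T1)
-/

open Metric Filter Topology

namespace Pool.Agent.Lib.MP_6ff8d9_an

noncomputable section

theorem density_of_approx {n : ℕ} (hn : 1 ≤ n) (G : Set ((Fin n → ℕ) → ℂ)) (hGd : KB n ⊆ closure (G ∩ KB n))
    (h : ∀ a₀ ∈ G ∩ KB n, ∀ γ₀ : Fin n → ℕ, ∀ ε > 0, ∀ V ∈ 𝓝 a₀, ∃ f ∈ V ∩ KB n,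
      ∀ k : (Fin n → ℕ) → ℂ, f + k ∈ KB n → f - k ∈ KB n → ‖k γ₀‖ < ε) :
    ∀ g ∈ NB n, ∀ ρ < (1 : ℝ), ∀ ε > (0 : ℝ), ∃ g' : Cn n → ℂ, IsExtremePoint n g' ∧
      ∀ z : Cn n, ‖z‖ ≤ ρ → ‖g' z - g z‖ < ε :=
  H19.density_of_approx_of hn (H19.pairing n) (fun _ hg => exists_KB hn hg)
    (fun _ ha => NB_of_KB hn ha) (fun _ _ ha hb hab => fn_inj hn ha hb hab) G hGd h

end

end Pool.Agent.Lib.MP_6ff8d9_an
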