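import Pool.Agent.Lib.MP_6ff8d9_an.Base2

/-!
# Compactness of `KB` and the Baire category reduction, from the facts on power series
-/

open Metric Filter Topology

namespace Pool.Agent.Lib.MP_6ff8d9_an

noncomputable section

namespace H19

variable {n : ℕ}

/-- the pairing inequality (T0.3) -/
def Pairing (n : ℕ) : Prop := ∀ {a : (Fin n → ℕ) → ℂ}, a ∈ KB n →
    ∀ (W : (Fin n → ℤ) →₀ ℂ), (∀ θ : Fin n → ℝ, 0 ≤ (evT W θ).re ∧ (evT W θ).im = 0) →
    ∀ (s : Fin n → ℝ), (∀ j, 0 < s j) → (∑ j, s j ^ 2 < (n : ℝ)) →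
    0 ≤ (W.sum fun γ c => c * ext a (-γ) * ((∏ j, s j ^ (-γ j) : ℝ) : ℂ)).re

/-! ### a summable family -/

lemma summable_geom (n : ℕ) {r : ℝ} (hr0 : 0 ≤ r) (hr1 : r < 1) :
    Summable (fun γ : Fin n → ℕ => ∏ j, r ^ γ j) := by
  induction n with
  | zero =>
    exact (hasSum_fintype _).summable
  | succ n ih =>
    have h1 : Summable (fun k : ℕ => r ^ k) := summable_geometric_of_lt_one hr0 hr1
    have h2 := h1.mul_of_nonneg ih (fun k => pow_nonneg hr0 k)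
      (fun γ => Finset.prod_nonneg fun j _ => pow_nonneg hr0 _)
    have e : (fun γ : Fin (n + 1) → ℕ => ∏ j, r ^ γ j) ∘ (Fin.consEquiv fun _ => ℕ) =
        fun x : ℕ × (Fin n → ℕ) => r ^ x.1 * ∏ j, r ^ x.2 j := by
      funext x
      simp [Function.comp, Fin.prod_univ_succ, Fin.consEquiv]
    rw [← (Fin.consEquiv fun _ : Fin (n + 1) => ℕ).summable_iff, e]
    exact h2

/-! ### the coefficient bound -/

lemma evT_add (F G : (Fin n → ℤ) →₀ ℂ) (θ : Fin n → ℝ) : evT (F + G) θ = evT F θ + evT G θ := by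
  unfold evT
  exact Finsupp.sum_add_index' (by simp) (by intros; ring)

lemma evT_single (γ : Fin n → ℤ) (c : ℂ) (θ : Fin n → ℝ) :
    evT (Finsupp.single γ c) θ =
      c * Complex.exp (Complex.I * ((∑ j, (γ j : ℝ) * θ j : ℝ) : ℂ)) := by
  unfold evT
  exact Finsupp.sum_single_index (by simp)

lemma coef_le_pos (hp : Pairing n) {a : (Fin n → ℕ) → ℂ} (ha : a ∈ KB n) (γ : Fin n → ℕ)
    (s : Fin n → ℝ) (hs : ∀ j, 0 < s j) (hs1 : ∑ j, s j ^ 2 < (n : ℝ)) :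
    ‖a γ‖ * ∏ j, s j ^ γ j ≤ 2 := by
  by_cases h0 : γ = 0
  · subst h0
    rw [ha.1]
    simp
  have hP : 0 < ∏ j, s j ^ γ j := Finset.prod_pos fun j _ => pow_pos (hs j) _
  by_cases ha0 : a γ = 0
  · rw [ha0]; simp
  -- the direction
  set ω : ℂ := -(a γ) / ‖a γ‖ with hω
  have hn : (‖a γ‖ : ℂ) ≠ 0 := by simpa using ha0
  have hω1 : ‖ω‖ = 1 := by
    rw [hω, norm_div, norm_neg]
    simp [ha0]
  let γ' : Fin n → ℤ := fun j => (γ j : ℤ)
  let W : (Fin n → ℤ) →₀ ℂ := Finsupp.single 0 1 + (Finsupp.single γ' (ω / 2) +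
    Finsupp.single (-γ') ((starRingEnd ℂ) ω / 2))
  have hW : ∀ θ : Fin n → ℝ, 0 ≤ (evT W θ).re ∧ (evT W θ).im = 0 := by
    intro θ
    have e0 : evT W θ = 1 + (ω / 2 * Complex.exp (Complex.I * ((∑ j, (γ' j : ℝ) * θ j : ℝ) : ℂ)) +
        (starRingEnd ℂ) ω / 2 *
          Complex.exp (Complex.I * ((∑ j, ((-γ') j : ℝ) * θ j : ℝ) : ℂ))) := by
      rw [evT_add, evT_add, evT_single, evT_single, evT_single]
      simp
    set x : ℝ := ∑ j, (γ' j : ℝ) * θ j with hx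
    have hx' : (∑ j, (((-γ') j : ℤ) : ℝ) * θ j : ℝ) = -x := by
      rw [hx, ← Finset.sum_neg_distrib]
      exact Finset.sum_congr rfl fun j _ => by simp
    rw [hx'] at e0
    set z : ℂ := ω * Complex.exp (Complex.I * (x : ℂ)) with hz
    have e1 : (starRingEnd ℂ) z = (starRingEnd ℂ) ω * Complex.exp (Complex.I * ((-x : ℝ) : ℂ)) := by
      rw [hz, map_mul, ← Complex.exp_conj]
      simp
    have e2 : evT W θ = 1 + (z + (starRingEnd ℂ) z) / 2 := by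
      rw [e0, e1, hz]; ring
    have e3 : evT W θ = ((1 + z.re : ℝ) : ℂ) := by
      rw [e2, Complex.add_conj]; push_cast; ring
    have hz1 : ‖z‖ = 1 := by
      rw [hz, norm_mul, hω1, one_mul, mul_comm, Complex.norm_exp_ofReal_mul_I]
    rw [e3, Complex.ofReal_re, Complex.ofReal_im]
    refine ⟨?_, rfl⟩
    have := Complex.abs_re_le_norm z
    rw [hz1] at this
    linarith [(abs_le.1 this).1]
  have key := hp ha W hW s hs hs1
  have hext0 : ext a (-(0 : Fin n → ℤ)) = 1 := by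
    have : ext a 0 = a 0 := by
      unfold ext
      rw [if_pos (by intro j; exact le_rfl)]
      rfl
    rw [neg_zero, this, ha.1]
  have hext1 : ext a (-γ') = 0 := by
    unfold ext
    rw [if_neg]
    intro hall
    apply h0
    funext j
    have := hall j
    simp only [Pi.neg_apply, γ'] at this
    have h2 : (γ j : ℤ) ≤ 0 := by linarith
    have h3 : γ j = 0 := by exact_mod_cast le_antisymm h2 (Int.natCast_nonneg _)
    rw [h3]; rfl
  have hext2 : ext a (-(-γ')) = a γ := by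
    rw [neg_neg]
    unfold ext
    rw [if_pos (fun j => Int.natCast_nonneg _)]
    simp [γ']
  have hsum : (W.sum fun γ c => c * ext a (-γ) * ((∏ j, s j ^ (-γ j) : ℝ) : ℂ)) =
      1 + (0 + (starRingEnd ℂ) ω / 2 * a γ * ((∏ j, s j ^ γ j : ℝ) : ℂ)) := by
    have h1 : ∀ (F G : (Fin n → ℤ) →₀ ℂ),
        ((F + G).sum fun γ c => c * ext a (-γ) * ((∏ j, s j ^ (-γ j) : ℝ) : ℂ)) =
          (F.sum fun γ c => c * ext a (-γ) * ((∏ j, s j ^ (-γ j) : ℝ) : ℂ)) +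
          (G.sum fun γ c => c * ext a (-γ) * ((∏ j, s j ^ (-γ j) : ℝ) : ℂ)) := by
      intro F G
      exact Finsupp.sum_add_index' (by simp) (by intros; ring)
    have h2 : ∀ (γ : Fin n → ℤ) (c : ℂ), ((Finsupp.single γ c).sum
        fun γ c => c * ext a (-γ) * ((∏ j, s j ^ (-γ j) : ℝ) : ℂ)) =
          c * ext a (-γ) * ((∏ j, s j ^ (-γ j) : ℝ) : ℂ) := by
      intro γ c
      exact Finsupp.sum_single_index (by simp)
    rw [h1, h1, h2, h2, h2, hext0, hext1, hext2]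
    have h3 : (∏ j, s j ^ (-((-γ') j)) : ℝ) = ∏ j, s j ^ γ j := by
      refine Finset.prod_congr rfl fun j _ => ?_
      simp [γ']
    rw [h3]
    simp
  rw [hsum] at key
  have e4 : (starRingEnd ℂ) ω / 2 * a γ * ((∏ j, s j ^ γ j : ℝ) : ℂ) =
      ((-(‖a γ‖ * ∏ j, s j ^ γ j) / 2 : ℝ) : ℂ) := by
    have h5 : (starRingEnd ℂ) ω * a γ = -(‖a γ‖ : ℂ) := by
      rw [hω, map_div₀, map_neg, Complex.conj_ofReal, div_mul_eq_mul_div, neg_mul,
        mul_comm ((starRingEnd ℂ) (a γ)), Complex.mul_conj, Complex.normSq_eq_norm_sq]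
      field_simp
      push_cast
      ring
    calc (starRingEnd ℂ) ω / 2 * a γ * ((∏ j, s j ^ γ j : ℝ) : ℂ)
        = ((starRingEnd ℂ) ω * a γ) * ((∏ j, s j ^ γ j : ℝ) : ℂ) / 2 := by ring
      _ = _ := by rw [h5]; push_cast; ring
  rw [e4, zero_add] at key
  rw [Complex.add_re, Complex.one_re, Complex.ofReal_re] at key
  linarith

lemma coef_le (hp : Pairing n) {a : (Fin n → ℕ) → ℂ} (ha : a ∈ KB n) (γ : Fin n → ℕ)
    (t : Fin n → ℝ) (ht : ∀ j, 0 ≤ t j) (ht1 : ∑ j, t j ^ 2 < (n : ℝ)) :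
    ‖a γ‖ * ∏ j, t j ^ γ j ≤ 2 := by
  -- perturb `t` to positive radii
  have hc : Continuous fun d : ℝ => ∑ j, (t j + d) ^ 2 := by fun_prop
  have h1 : ∀ᶠ d in 𝓝 (0 : ℝ), ∑ j, (t j + d) ^ 2 < (n : ℝ) := by
    have := hc.tendsto 0
    simp only [add_zero] at this
    exact this.eventually_lt_const ht1
  obtain ⟨δ, hδ, hδ'⟩ := Metric.eventually_nhds_iff.1 h1
  have h2 : ∑ j, (t j + δ / 2) ^ 2 < (n : ℝ) := by
    apply hδ'
    rw [Real.dist_eq, sub_zero, abs_of_pos (by positivity)]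
    linarith
  refine le_trans ?_ (coef_le_pos hp ha γ (fun j => t j + δ / 2)
    (fun j => by have := ht j; positivity) h2)
  refine mul_le_mul_of_nonneg_left ?_ (norm_nonneg _)
  exact Finset.prod_le_prod (fun j _ => pow_nonneg (ht j) _)
    fun j _ => pow_le_pow_left₀ (ht j) (by linarith) _

/-- the closed set of coefficient families satisfying the coefficient bounds -/
def CB (n : ℕ) : Set ((Fin n → ℕ) → ℂ) :=
  {a | a 0 = 1 ∧ ∀ (γ : Fin n → ℕ) (t : Fin n → ℝ), (∀ j, 0 ≤ t j) → ∑ j, t j ^ 2 < (n : ℝ) →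
    ‖a γ‖ * ∏ j, t j ^ γ j ≤ 2}

lemma KB_subset_CB (hp : Pairing n) : KB n ⊆ CB n :=
  fun _ ha => ⟨ha.1, fun γ t ht ht1 => coef_le hp ha γ t ht ht1⟩

lemma isClosed_CB : IsClosed (CB n) := by
  have e : CB n = {a | a 0 = 1} ∩ ⋂ (γ : Fin n → ℕ) (t : Fin n → ℝ) (_ : ∀ j, 0 ≤ t j)
      (_ : ∑ j, t j ^ 2 < (n : ℝ)), {a | ‖a γ‖ * ∏ j, t j ^ γ j ≤ 2} := by
    ext a
    simp [CB]
  rw [e]
  refine IsClosed.inter (isClosed_eq (continuous_apply _) continuous_const) ?_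
  refine isClosed_iInter fun γ => isClosed_iInter fun t => isClosed_iInter fun _ =>
    isClosed_iInter fun _ => ?_
  exact isClosed_le ((continuous_apply γ).norm.mul continuous_const) continuous_const

lemma dom {a : (Fin n → ℕ) → ℂ} (ha : a ∈ CB n) {y : Fin n → ℂ} {r : ℝ} (hr : 0 < r)
    (hy : ∑ j, (‖y j‖ / r) ^ 2 < (n : ℝ)) (γ : Fin n → ℕ) :
    ‖a γ * mon γ y‖ ≤ 2 * ∏ j, r ^ γ j := by
  have h1 := ha.2 γ (fun j => ‖y j‖ / r) (fun j => by positivity) hy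
  have h2 : ‖mon γ y‖ = (∏ j, (‖y j‖ / r) ^ γ j) * ∏ j, r ^ γ j := by
    rw [mon, norm_prod, ← Finset.prod_mul_distrib]
    refine Finset.prod_congr rfl fun j _ => ?_
    rw [norm_pow, ← mul_pow, div_mul_cancel₀ _ hr.ne']
  rw [norm_mul, h2, ← mul_assoc]
  exact mul_le_mul_of_nonneg_right h1 (Finset.prod_nonneg fun j _ => pow_nonneg hr.le _)

/-- for `y ∈ Dn` there is a suitable ratio `r < 1` -/
lemma exists_ratio {y : Fin n → ℂ} (hy : y ∈ Dn n) :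
    ∃ r : ℝ, 0 < r ∧ r < 1 ∧ ∑ j, (‖y j‖ / r) ^ 2 < (n : ℝ) := by
  have h1 : ∀ᶠ r in 𝓝[<] (1 : ℝ), ∑ j, (‖y j‖ / r) ^ 2 < (n : ℝ) := by
    have hc : ContinuousAt (fun r : ℝ => ∑ j, (‖y j‖ / r) ^ 2) 1 := by
      refine tendsto_finsetSum _ fun j _ => ?_
      exact (continuousAt_const.div continuousAt_id one_ne_zero).pow 2
    have h2 : ∑ j, (‖y j‖ / 1) ^ 2 < (n : ℝ) := by
      simp only [div_one]
      exact hy
    exact (hc.tendsto.eventually_lt_const h2).filter_mono nhdsWithin_le_nhds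
  have h2 : ∀ᶠ r in 𝓝[<] (1 : ℝ), 0 < r :=
    (eventually_gt_nhds one_pos).filter_mono nhdsWithin_le_nhds
  have h3 : ∀ᶠ r in 𝓝[<] (1 : ℝ), r < 1 := self_mem_nhdsWithin
  obtain ⟨r, ⟨hr1, hr2⟩, hr3⟩ := ((h1.and h2).and h3).exists
  exact ⟨r, hr2, hr3, hr1⟩

lemma continuousOn_fn {y : Fin n → ℂ} (hy : y ∈ Dn n) : ContinuousOn (fun a => fn a y) (CB n) := by
  obtain ⟨r, h0, h1, h2⟩ := exists_ratio hy
  refine continuousOn_tsum (u := fun γ : Fin n → ℕ => 2 * ∏ j, r ^ γ j) (fun γ => ?_)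
    ((summable_geom n h0.le h1).mul_left 2) (fun γ a ha => dom ha h0 h2 γ)
  exact ((continuous_apply γ).mul continuous_const).continuousOn

lemma summable_of_CB {a : (Fin n → ℕ) → ℂ} (ha : a ∈ CB n) {y : Fin n → ℂ} (hy : y ∈ Dn n) :
    Summable (fun γ => a γ * mon γ y) := by
  obtain ⟨r, h0, h1, h2⟩ := exists_ratio hy
  exact Summable.of_norm_bounded ((summable_geom n h0.le h1).mul_left 2) (dom ha h0 h2)

lemma isClosed_KB (hp : Pairing n) : IsClosed (KB n) := by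
  have e : KB n = CB n ∩ ⋂ y : Dn n, (CB n ∩ (fun a => fn a y.1) ⁻¹' {z : ℂ | 0 ≤ z.re}) := by
    ext a
    constructor
    · intro ha
      refine ⟨KB_subset_CB hp ha, Set.mem_iInter.2 fun y => ⟨KB_subset_CB hp ha, (ha.2 y y.2).2⟩⟩
    · rintro ⟨h1, h2⟩
      refine ⟨h1.1, fun y hy => ⟨summable_of_CB h1 hy, ?_⟩⟩
      exact (Set.mem_iInter.1 h2 ⟨y, hy⟩).2
  rw [e]
  refine isClosed_CB.inter (isClosed_iInter fun y => ?_)
  exact (continuousOn_fn y.2).preimage_isClosed_of_isClosed isClosed_CB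
    (isClosed_le continuous_const Complex.continuous_re)

lemma norm_le_two_of_CB (hn : 1 ≤ n) {a : (Fin n → ℕ) → ℂ} (ha : a ∈ CB n) (γ : Fin n → ℕ) :
    ‖a γ‖ ≤ 2 := by
  have h : Tendsto (fun t : ℝ => ‖a γ‖ * ∏ j, t ^ γ j) (𝓝[<] 1) (𝓝 (‖a γ‖ * ∏ j, (1 : ℝ) ^ γ j)) := by
    have hc : Continuous fun t : ℝ => ‖a γ‖ * ∏ j, t ^ γ j := by fun_prop
    exact (hc.tendsto 1).mono_left nhdsWithin_le_nhds
  have h1 : ∀ᶠ t in 𝓝[<] (1 : ℝ), ‖a γ‖ * ∏ j, t ^ γ j ≤ 2 := by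
    have h2 : ∀ᶠ r in 𝓝[<] (1 : ℝ), 0 < r :=
      (eventually_gt_nhds one_pos).filter_mono nhdsWithin_le_nhds
    have h3 : ∀ᶠ r in 𝓝[<] (1 : ℝ), r < 1 := self_mem_nhdsWithin
    filter_upwards [h2, h3] with t ht0 ht1
    refine ha.2 γ (fun _ => t) (fun _ => ht0.le) ?_
    have : (0 : ℝ) < n := by exact_mod_cast hn
    simp only [Finset.sum_const, Finset.card_univ, Fintype.card_fin, nsmul_eq_mul]
    have h4 : t ^ 2 < 1 := by nlinarith
    nlinarith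
  have := le_of_tendsto h h1
  simpa using this

theorem isCompact_KB_of (hn : 1 ≤ n) (hp : Pairing n) : IsCompact (KB n) := by
  have h1 : IsCompact (Set.univ.pi fun _ : Fin n → ℕ => closedBall (0 : ℂ) 2) :=
    isCompact_univ_pi fun _ => isCompact_closedBall _ _
  refine h1.of_isClosed_subset (isClosed_KB hp) fun a ha γ _ => ?_
  rw [mem_closedBall_zero_iff]
  exact norm_le_two_of_CB hn (KB_subset_CB hp ha) γ

/-! ### convexity and evaluation -/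

lemma fn_comb {a b : (Fin n → ℕ) → ℂ} {y : Fin n → ℂ} (ha : Summable (fun γ => a γ * mon γ y))
    (hb : Summable (fun γ => b γ * mon γ y)) (c d : ℝ) :
    Summable (fun γ => ((c : ℂ) • a + (d : ℂ) • b) γ * mon γ y) ∧
      fn ((c : ℂ) • a + (d : ℂ) • b) y = c * fn a y + d * fn b y := by
  have e : (fun γ => ((c : ℂ) • a + (d : ℂ) • b) γ * mon γ y) =
      fun γ => c * (a γ * mon γ y) + d * (b γ * mon γ y) := by
    funext γ
    simp only [Pi.add_apply, Pi.smul_apply, smul_eq_mul]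
    ring
  have h := (ha.hasSum.mul_left (c : ℂ)).add (hb.hasSum.mul_left (d : ℂ))
  unfold fn
  rw [e]
  exact ⟨h.summable, h.tsum_eq⟩

lemma comb_mem {a b : (Fin n → ℕ) → ℂ} (ha : a ∈ KB n) (hb : b ∈ KB n) {c d : ℝ} (hc : 0 ≤ c)
    (hd : 0 ≤ d) (hcd : c + d = 1) : (c : ℂ) • a + (d : ℂ) • b ∈ KB n := by
  refine ⟨?_, fun y hy => ?_⟩
  · simp only [Pi.add_apply, Pi.smul_apply, smul_eq_mul, ha.1, hb.1, mul_one]
    exact_mod_cast hcd
  · obtain ⟨h1, h2⟩ := fn_comb (ha.2 y hy).1 (hb.2 y hy).1 c d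
    refine ⟨h1, ?_⟩
    rw [h2, Complex.add_re, Complex.re_ofReal_mul, Complex.re_ofReal_mul]
    have := (ha.2 y hy).2
    have := (hb.2 y hy).2
    positivity

/-- scaling of the ball to `Dn` -/
def sc (n : ℕ) (z : Cn n) : Fin n → ℂ := fun j => (Real.sqrt n : ℂ) * z j

lemma continuous_sc : Continuous (sc n) := by
  unfold sc
  fun_prop

lemma sum_sc (z : Cn n) (r : ℝ) : ∑ j, (‖sc n z j‖ / r) ^ 2 = n * (‖z‖ / r) ^ 2 := by
  have h1 : ∀ j, (‖sc n z j‖ / r) ^ 2 = n * (‖z j‖ ^ 2 / r ^ 2) := by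
    intro j
    rw [sc, norm_mul, Complex.norm_real, Real.norm_eq_abs, abs_of_nonneg (Real.sqrt_nonneg _),
      div_pow, mul_pow, Real.sq_sqrt (Nat.cast_nonneg n)]
    ring
  simp only [h1]
  rw [← Finset.mul_sum, ← Finset.sum_div, ← EuclideanSpace.norm_sq_eq, div_pow]

lemma sc_mem (hn : 1 ≤ n) {z : Cn n} (hz : z ∈ ball (0 : Cn n) 1) : sc n z ∈ Dn n := by
  have h := sum_sc z 1
  simp only [div_one] at h
  have h0 : (0 : ℝ) < n := by exact_mod_cast hn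
  have hz' : ‖z‖ < 1 := by simpa using hz
  change ∑ j, ‖sc n z j‖ ^ 2 < (n : ℝ)
  rw [h]
  have : ‖z‖ ^ 2 < 1 := by nlinarith [norm_nonneg z]
  nlinarith

lemma exists_sc (hn : 1 ≤ n) {y : Fin n → ℂ} (hy : y ∈ Dn n) :
    ∃ z ∈ ball (0 : Cn n) 1, sc n z = y := by
  have h0 : (0 : ℝ) < n := by exact_mod_cast hn
  have hs : (0 : ℝ) < Real.sqrt n := Real.sqrt_pos.2 h0
  let z : Cn n := WithLp.toLp 2 fun j => y j / (Real.sqrt n : ℂ)
  have e : sc n z = y := by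
    funext j
    change (Real.sqrt n : ℂ) * (y j / (Real.sqrt n : ℂ)) = y j
    have : (Real.sqrt n : ℂ) ≠ 0 := by exact_mod_cast hs.ne'
    field_simp
  refine ⟨z, ?_, e⟩
  have h := sum_sc z 1
  simp only [div_one, e] at h
  have hy' : ∑ j, ‖y j‖ ^ 2 < (n : ℝ) := hy
  rw [h] at hy'
  have h1 : ‖z‖ ^ 2 < 1 := by
    by_contra hcon
    push Not at hcon
    nlinarith
  rw [mem_ball_zero_iff]
  nlinarith [norm_nonneg z]

/-- closeness of coefficients implies uniform closeness on smaller balls -/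
lemma eventually_close (hn : 1 ≤ n) {K : Set ((Fin n → ℕ) → ℂ)} (hK : K ⊆ CB n) (a : K) {ρ : ℝ}
    (hρ : ρ < 1) {ε : ℝ} (hε : 0 < ε) :
    ∀ᶠ b : K in 𝓝 a, ∀ z : Cn n, ‖z‖ ≤ ρ → ‖fn b.1 (sc n z) - fn a.1 (sc n z)‖ < ε := by
  have h0 : (0 : ℝ) < n := by exact_mod_cast hn
  obtain ⟨r, hr1, hr2⟩ := exists_between (max_lt hρ zero_lt_one)
  have hr0 : 0 < r := lt_of_le_of_lt (le_max_right _ _) hr1
  have hρr : ρ < r := lt_of_le_of_lt (le_max_left _ _) hr1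
  let Z := closedBall (0 : Cn n) ρ
  have hc : Continuous fun x : K × Z => fn x.1.1 (sc n x.2.1) := by
    refine continuous_tsum (u := fun γ : Fin n → ℕ => 2 * ∏ j, r ^ γ j) (fun γ => ?_)
      ((summable_geom n hr0.le hr2).mul_left 2) (fun γ x => ?_)
    · refine Continuous.mul ((continuous_apply γ).comp (continuous_subtype_val.comp continuous_fst)) ?_
      unfold mon
      refine continuous_finsetProd _ fun j _ => ?_
      exact (((continuous_apply j).comp continuous_sc).comp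
        (continuous_subtype_val.comp continuous_snd)).pow _
    · refine dom (hK x.1.2) hr0 ?_ γ
      rw [sum_sc]
      have hx : ‖x.2.1‖ ≤ ρ := mem_closedBall_zero_iff.1 x.2.2
      have h1 : ‖x.2.1‖ / r < 1 := (div_lt_one hr0).2 (lt_of_le_of_lt hx hρr)
      have h2 : (‖x.2.1‖ / r) ^ 2 < 1 := by
        have : 0 ≤ ‖x.2.1‖ / r := by positivity
        nlinarith
      nlinarith
  have hd : Continuous fun x : K × Z => ‖fn x.1.1 (sc n x.2.1) - fn a.1 (sc n x.2.1)‖ := by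
    refine (hc.sub ?_).norm
    have : Continuous fun x : K × Z => ((a, x.2) : K × Z) := by fun_prop
    exact hc.comp this
  have hZ : CompactSpace Z := isCompact_iff_compactSpace.1 (isCompact_closedBall _ _)
  have key : ∀ᶠ b : K in 𝓝 a, ∀ z ∈ (Set.univ : Set Z),
      ‖fn b.1 (sc n z.1) - fn a.1 (sc n z.1)‖ < ε := by
    refine isCompact_univ.eventually_forall_of_forall_eventually fun z _ => ?_
    have h3 : (fun x : K × Z => ‖fn x.1.1 (sc n x.2.1) - fn a.1 (sc n x.2.1)‖) (a, z) < ε := by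
      simpa using hε
    exact (hd.continuousAt (x := (a, z))).tendsto.eventually_lt_const h3
  filter_upwards [key] with b hb z hz
  exact hb ⟨z, by simpa [Z] using hz⟩ (Set.mem_univ _)

/-! ### the Baire category argument -/

/-- `f` is `ε`-rigid in the coefficient `γ₀` -/
def Rig (n : ℕ) (γ₀ : Fin n → ℕ) (ε : ℝ) : Set (KB n) :=
  {f | ∀ k : (Fin n → ℕ) → ℂ, f.1 + k ∈ KB n → f.1 - k ∈ KB n → ‖k γ₀‖ < ε}

lemma isOpen_Rig (hK : IsCompact (KB n)) (γ₀ : Fin n → ℕ) (ε : ℝ) : IsOpen (Rig n γ₀ ε) := by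
  -- the complement is the projection of a compact set
  let S : Set (((Fin n → ℕ) → ℂ) × ((Fin n → ℕ) → ℂ)) :=
    (KB n ×ˢ KB n) ∩ {x | ε ≤ ‖((1 / 2 : ℂ) • (x.1 - x.2)) γ₀‖}
  have hS : IsCompact S := by
    refine (hK.prod hK).inter_right (isClosed_le continuous_const ?_)
    have : Continuous fun x : ((Fin n → ℕ) → ℂ) × ((Fin n → ℕ) → ℂ) =>
        ((1 / 2 : ℂ) • (x.1 - x.2)) γ₀ := (continuous_apply γ₀).comp (by fun_prop)
    exact this.norm
  let φ : ((Fin n → ℕ) → ℂ) × ((Fin n → ℕ) → ℂ) → ((Fin n → ℕ) → ℂ) :=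
    fun x => (1 / 2 : ℂ) • (x.1 + x.2)
  have hφ : Continuous φ := by fun_prop
  have h1 : IsClosed (φ '' S) := (hS.image hφ).isClosed
  have h2 : (Rig n γ₀ ε)ᶜ = Subtype.val ⁻¹' (φ '' S) := by
    ext f
    simp only [Set.mem_compl_iff, Rig, Set.mem_ofPred_eq, not_forall, Set.mem_preimage,
      Set.mem_image, not_lt]
    constructor
    · rintro ⟨k, hk1, hk2, hk3⟩
      refine ⟨(f.1 + k, f.1 - k), ⟨⟨hk1, hk2⟩, ?_⟩, ?_⟩
      · have e : (1 / 2 : ℂ) • ((f.1 + k) - (f.1 - k)) = k := by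
          funext γ
          simp only [Pi.smul_apply, Pi.sub_apply, Pi.add_apply, smul_eq_mul]
          ring
        change ε ≤ ‖((1 / 2 : ℂ) • ((f.1 + k) - (f.1 - k))) γ₀‖
        rw [e]
        exact hk3
      · funext γ
        simp only [φ, Pi.smul_apply, Pi.sub_apply, Pi.add_apply, smul_eq_mul]
        ring
    · rintro ⟨⟨u, v⟩, ⟨⟨hu, hv⟩, huv⟩, he⟩
      refine ⟨(1 / 2 : ℂ) • (u - v), ?_, ?_, huv⟩
      · have e : f.1 + (1 / 2 : ℂ) • (u - v) = u := by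
          rw [← he]
          funext γ
          simp only [φ, Pi.smul_apply, Pi.sub_apply, Pi.add_apply, smul_eq_mul]
          ring
        rw [e]; exact hu
      · have e : f.1 - (1 / 2 : ℂ) • (u - v) = v := by
          rw [← he]
          funext γ
          simp only [φ, Pi.smul_apply, Pi.sub_apply, Pi.add_apply, smul_eq_mul]
          ring
        rw [e]; exact hv
  rw [← isClosed_compl_iff, h2]
  exact h1.preimage continuous_subtype_val

lemma dense_Rig (G : Set ((Fin n → ℕ) → ℂ)) (hGd : KB n ⊆ closure (G ∩ KB n))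
    (h : ∀ a₀ ∈ G ∩ KB n, ∀ γ₀ : Fin n → ℕ, ∀ ε > 0, ∀ V ∈ 𝓝 a₀, ∃ f ∈ V ∩ KB n,
      ∀ k : (Fin n → ℕ) → ℂ, f + k ∈ KB n → f - k ∈ KB n → ‖k γ₀‖ < ε)
    (γ₀ : Fin n → ℕ) {ε : ℝ} (hε : 0 < ε) : Dense (Rig n γ₀ ε) := by
  intro x
  rw [mem_closure_iff_nhds]
  intro T hT
  rw [nhds_subtype_eq_comap, mem_comap] at hT
  obtain ⟨V, hV, hVT⟩ := hT
  obtain ⟨U, hUV, hU, hxU⟩ := mem_nhds_iff.1 hV
  obtain ⟨a₀, ha₀U, ha₀⟩ := mem_closure_iff.1 (hGd x.2) U hU hxU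
  obtain ⟨f, ⟨hf1, hf2⟩, hf3⟩ := h a₀ ha₀ γ₀ ε hε U (hU.mem_nhds ha₀U)
  exact ⟨⟨f, hf2⟩, hVT (hUV hf1), hf3⟩

theorem density_of_approx_of (hn : 1 ≤ n) (hp : Pairing n)
    (hex : ∀ g : Cn n → ℂ, g ∈ NB n → ∃ a ∈ KB n, ∀ z ∈ ball (0 : Cn n) 1,
      g z = fn a (fun j => (Real.sqrt n : ℂ) * z j))
    (hNB : ∀ a : (Fin n → ℕ) → ℂ, a ∈ KB n →
      (fun z : Cn n => fn a (fun j => (Real.sqrt n : ℂ) * z j)) ∈ NB n)
    (hinj : ∀ a b : (Fin n → ℕ) → ℂ, (∀ y ∈ Dn n, Summable (fun γ => a γ * mon γ y)) →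
      (∀ y ∈ Dn n, Summable (fun γ => b γ * mon γ y)) → (∀ y ∈ Dn n, fn a y = fn b y) → a = b)
    (G : Set ((Fin n → ℕ) → ℂ)) (hGd : KB n ⊆ closure (G ∩ KB n))
    (h : ∀ a₀ ∈ G ∩ KB n, ∀ γ₀ : Fin n → ℕ, ∀ ε > 0, ∀ V ∈ 𝓝 a₀, ∃ f ∈ V ∩ KB n,
      ∀ k : (Fin n → ℕ) → ℂ, f + k ∈ KB n → f - k ∈ KB n → ‖k γ₀‖ < ε) :
    ∀ g ∈ NB n, ∀ ρ < (1 : ℝ), ∀ ε > (0 : ℝ), ∃ g' : Cn n → ℂ, IsExtremePoint n g' ∧
      ∀ z : Cn n, ‖z‖ ≤ ρ → ‖g' z - g z‖ < ε := by
  intro g hg ρ hρ ε hε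
  have hK := isCompact_KB_of hn hp
  have : CompactSpace (KB n) := isCompact_iff_compactSpace.1 hK
  obtain ⟨a, ha, hag⟩ := hex g hg
  have hdense : Dense (⋂ x : (Fin n → ℕ) × ℕ, Rig n x.1 (1 / ((x.2 : ℝ) + 1))) :=
    dense_iInter_of_isOpen (fun x => isOpen_Rig hK _ _)
      (fun x => dense_Rig G hGd h _ (by positivity))
  have hclose := eventually_close hn (KB_subset_CB hp) ⟨a, ha⟩ hρ hε
  obtain ⟨b, hb1, hb2⟩ := (hdense.inter_nhds_nonempty hclose)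
  refine ⟨fun z => fn b.1 (sc n z), ⟨hNB b.1 b.2, ?_⟩, ?_⟩
  · intro g₁ hg₁ g₂ hg₂ t ht0 ht1 heq
    obtain ⟨b₁, hb₁, hbg₁⟩ := hex g₁ hg₁
    obtain ⟨b₂, hb₂, hbg₂⟩ := hex g₂ hg₂
    have hbt : b.1 = (t : ℂ) • b₁ + ((1 - t : ℝ) : ℂ) • b₂ := by
      refine hinj _ _ (fun y hy => (b.2.2 y hy).1)
        (fun y hy => (fn_comb (hb₁.2 y hy).1 (hb₂.2 y hy).1 t (1 - t)).1) fun y hy => ?_
      obtain ⟨z, hz, rfl⟩ := exists_sc hn hy
      have h1 := heq z hz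
      rw [hbg₁ z hz, hbg₂ z hz] at h1
      rw [(fn_comb (hb₁.2 _ hy).1 (hb₂.2 _ hy).1 t (1 - t)).2]
      push_cast
      exact h1
    set τ := min t (1 - t) with hτ
    have hτ0 : 0 < τ := lt_min ht0 (by linarith)
    have hτ1 : τ ≤ t := min_le_left _ _
    have hτ2 : τ ≤ 1 - t := min_le_right _ _
    have hk : ∀ γ₀ : Fin n → ℕ, ((τ : ℂ) • (b₁ - b₂)) γ₀ = 0 := by
      intro γ₀
      have hlt : ∀ i : ℕ, ‖((τ : ℂ) • (b₁ - b₂)) γ₀‖ < 1 / ((i : ℝ) + 1) := by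
        intro i
        have h2 := Set.mem_iInter.1 hb1 (γ₀, i)
        refine h2 ((τ : ℂ) • (b₁ - b₂)) ?_ ?_
        · have e : b.1 + (τ : ℂ) • (b₁ - b₂) =
              ((t + τ : ℝ) : ℂ) • b₁ + ((1 - t - τ : ℝ) : ℂ) • b₂ := by
            rw [hbt]
            funext γ
            simp only [Pi.smul_apply, Pi.sub_apply, Pi.add_apply, smul_eq_mul]
            push_cast
            ring
          rw [e]
          exact comb_mem hb₁ hb₂ (by linarith) (by linarith) (by ring)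
        · have e : b.1 - (τ : ℂ) • (b₁ - b₂) =
              ((t - τ : ℝ) : ℂ) • b₁ + ((1 - t + τ : ℝ) : ℂ) • b₂ := by
            rw [hbt]
            funext γ
            simp only [Pi.smul_apply, Pi.sub_apply, Pi.add_apply, smul_eq_mul]
            push_cast
            ring
          rw [e]
          exact comb_mem hb₁ hb₂ (by linarith) (by linarith) (by ring)
      have h3 : ‖((τ : ℂ) • (b₁ - b₂)) γ₀‖ ≤ 0 :=
        ge_of_tendsto' tendsto_one_div_add_atTop_nhds_zero_nat fun i => (hlt i).le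
      exact norm_le_zero_iff.1 h3
    have hb12 : b₁ = b₂ := by
      funext γ
      have h4 := hk γ
      simp only [Pi.smul_apply, Pi.sub_apply, smul_eq_mul, mul_eq_zero] at h4
      rcases h4 with h4 | h4
      · exact absurd (by exact_mod_cast h4) hτ0.ne'
      · exact sub_eq_zero.1 h4
    intro z hz
    rw [hbg₁ z hz, hbg₂ z hz, hb12]
  · intro z hz
    have h5 := hb2 z hz
    have h6 : g z = fn a (sc n z) := hag z (by
      rw [mem_ball_zero_iff]; linarith)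
    rw [h6]
    exact h5

end H19

end

end Pool.Agent.Lib.MP_6ff8d9_an
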