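import Pool.Agent.Lib.MP_6ff8d9_an_h19.BaireOf

/-!
# Good polynomials are dense in `KB`
-/

open Metric Filter Topology

namespace Pool.Agent.Lib.MP_6ff8d9_an

noncomputable section

namespace H19

variable {n : ℕ}

lemma mon_smul (s : ℝ) (γ : Fin n → ℕ) (y : Fin n → ℂ) :
    mon γ (fun j => (s : ℂ) * y j) = ((∏ j, s ^ γ j : ℝ) : ℂ) * mon γ y := by
  unfold mon
  push_cast
  rw [← Finset.prod_mul_distrib]
  exact Finset.prod_congr rfl fun j _ => mul_pow _ _ _

lemma fn_finsupp (p : (Fin n → ℕ) →₀ ℂ) (y : Fin n → ℂ) :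
    Summable (fun γ => p γ * mon γ y) ∧ fn (⇑p) y = p.sum fun γ c => c * mon γ y := by
  have h : HasSum (fun γ => p γ * mon γ y) (∑ γ ∈ p.support, p γ * mon γ y) :=
    hasSum_sum_of_ne_finset_zero fun γ hγ => by
      rw [Finsupp.notMem_support_iff.1 hγ, zero_mul]
  exact ⟨h.summable, h.tsum_eq⟩

/-- one step of the approximation -/
lemma good_step (hn : 1 ≤ n) {a : (Fin n → ℕ) → ℂ} (ha : a ∈ KB n) (hC : a ∈ CB n) {s η : ℝ}
    (hs0 : 0 < s) (hs1 : s < 1) (hη : 0 < η) (T₀ : ℕ) :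
    ∃ b ∈ Good n ∩ KB n, ∀ γ : Fin n → ℕ, (∀ j, γ j ≤ T₀) →
      b γ = (a γ * ((∏ j, s ^ γ j : ℝ) : ℂ) + if γ = 0 then (2 * η : ℂ) else 0) / (1 + 2 * η) := by
  have hn0 : (0 : ℝ) < n := by exact_mod_cast hn
  obtain ⟨r, hr1, hr2⟩ := exists_between hs1
  have hr0 : 0 < r := hs0.trans hr1
  -- the truncation
  have hu : Summable (fun γ : Fin n → ℕ => 2 * ∏ j, r ^ γ j) := (summable_geom n hr0.le hr2).mul_left 2
  have htail := (tendsto_tsum_compl_atTop_zero fun γ : Fin n → ℕ => 2 * ∏ j, r ^ γ j)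
  obtain ⟨S₀, hS₀⟩ := (htail.eventually_lt_const hη).exists_forall_of_atTop
  obtain ⟨T, hT1, hT2⟩ : ∃ T : ℕ, T₀ ≤ T ∧ ∀ γ ∈ S₀, ∀ j, γ j ≤ T := by
    refine ⟨max T₀ (S₀.sup fun γ => Finset.univ.sup fun j => γ j), le_max_left _ _, ?_⟩
    intro γ hγ j
    refine le_trans ?_ (le_max_right _ _)
    exact le_trans (Finset.le_sup (f := fun j => γ j) (Finset.mem_univ j))
      (Finset.le_sup (f := fun γ : Fin n → ℕ => Finset.univ.sup fun j => γ j) hγ)
  let S : Finset (Fin n → ℕ) := Fintype.piFinset fun _ => Finset.range (T + 1)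
  have hmemS : ∀ γ : Fin n → ℕ, γ ∈ S ↔ ∀ j, γ j ≤ T := by
    intro γ
    simp only [S, Fintype.mem_piFinset, Finset.mem_range, Nat.lt_succ_iff]
  have hSS : S₀ ≤ S := fun γ hγ => (hmemS γ).2 (hT2 γ hγ)
  have htailS := hS₀ S hSS
  -- the isolated monomial
  let i : Fin n := ⟨0, hn⟩
  let e : Fin n → ℕ := Pi.single i (T + 1)
  have hei : e i = T + 1 := Pi.single_eq_same _ _
  have heS : e ∉ S := by
    intro h
    have := (hmemS e).1 h i
    rw [hei] at this
    omega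
  set δ : ℝ := η / (2 * (1 + 2 * η)) with hδ
  have hδ0 : 0 < δ := by positivity
  set τ : ℝ := δ / (n : ℝ) ^ (T + 1) with hτ
  have hτ0 : 0 < τ := by positivity
  let f : (Fin n → ℕ) → ℂ := fun γ => if γ ∈ S then
    (a γ * ((∏ j, s ^ γ j : ℝ) : ℂ) + if γ = 0 then (2 * η : ℂ) else 0) / (1 + 2 * η) else
      if γ = e then (τ : ℂ) else 0
  have hfS : ∀ γ ∈ S, f γ =
      (a γ * ((∏ j, s ^ γ j : ℝ) : ℂ) + if γ = 0 then (2 * η : ℂ) else 0) / (1 + 2 * η) :=
    fun γ hγ => if_pos hγ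
  have hfe : f e = τ := by
    change (if e ∈ S then _ else if e = e then (τ : ℂ) else 0) = τ
    rw [if_neg heS, if_pos rfl]
  have hf0 : ∀ γ, γ ∉ S → γ ≠ e → f γ = 0 := by
    intro γ h1 h2
    change (if γ ∈ S then _ else if γ = e then (τ : ℂ) else 0) = 0
    rw [if_neg h1, if_neg h2]
  have hsupp : ∀ γ, f γ ≠ 0 → γ ∈ insert e S := by
    intro γ hγ
    by_contra hcon
    rw [Finset.mem_insert, not_or] at hcon
    exact hγ (hf0 γ hcon.2 hcon.1)
  let p : (Fin n → ℕ) →₀ ℂ := Finsupp.onFinset (insert e S) f hsupp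
  have hp : ∀ γ, p γ = f γ := fun γ => rfl
  have h1η : (1 + 2 * η : ℂ) ≠ 0 := by
    have : (1 + 2 * η : ℝ) ≠ 0 := by positivity
    exact_mod_cast this
  have h0S : (0 : Fin n → ℕ) ∈ S := (hmemS 0).2 fun j => Nat.zero_le _
  have hp0 : p 0 = 1 := by
    rw [hp, hfS 0 h0S, ha.1]
    simp only [Pi.zero_apply, pow_zero, Finset.prod_const_one, Complex.ofReal_one, mul_one, if_true]
    exact div_self h1η
  -- the lower bound of the real part
  have hre : ∀ y ∈ Dn n, δ ≤ (p.sum fun γ c => c * mon γ y).re := by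
    intro y hy
    have hy' : ∑ j, ‖y j‖ ^ 2 < (n : ℝ) := hy
    let y' : Fin n → ℂ := fun j => (s : ℂ) * y j
    have hy1 : ∑ j, (‖y' j‖ / r) ^ 2 < (n : ℝ) := by
      have : ∑ j, (‖y' j‖ / r) ^ 2 ≤ ∑ j, ‖y j‖ ^ 2 := by
        refine Finset.sum_le_sum fun j _ => ?_
        have h3 : ‖y' j‖ / r = (s / r) * ‖y j‖ := by
          rw [norm_mul, Complex.norm_real, Real.norm_eq_abs, abs_of_pos hs0]
          ring
        rw [h3, mul_pow]
        have h4 : s / r ≤ 1 := (div_le_one hr0).2 hr1.le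
        have h5 : 0 ≤ s / r := by positivity
        have h6 : (s / r) ^ 2 ≤ 1 := by nlinarith
        exact mul_le_of_le_one_left (by positivity) h6
      linarith
    have hyD : y' ∈ Dn n := by
      have : ∑ j, ‖y' j‖ ^ 2 ≤ ∑ j, ‖y j‖ ^ 2 := by
        refine Finset.sum_le_sum fun j _ => ?_
        rw [norm_mul, Complex.norm_real, Real.norm_eq_abs, abs_of_pos hs0, mul_pow]
        have h6 : s ^ 2 ≤ 1 := by nlinarith
        exact mul_le_of_le_one_left (by positivity) h6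
      change ∑ j, ‖y' j‖ ^ 2 < (n : ℝ)
      linarith
    have hsum := (ha.2 y' hyD).1
    have hdom := dom hC hr0 hy1
    -- comparison with the truncation
    have h7 : fn a y' = ∑ γ ∈ S, a γ * mon γ y' + ∑' γ : {x // x ∉ S}, a γ.1 * mon γ.1 y' :=
      (hsum.sum_add_tsum_subtype_compl S).symm
    have h8 : ‖∑' γ : {x // x ∉ S}, a γ.1 * mon γ.1 y'‖ ≤
        ∑' γ : {x // x ∉ S}, 2 * ∏ j, r ^ (γ.1 j) :=
      tsum_of_norm_bounded (hu.subtype _).hasSum fun γ => hdom γ.1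
    have h9 : -η ≤ (∑ γ ∈ S, a γ * mon γ y').re := by
      have h10 := (ha.2 y' hyD).2
      rw [h7, Complex.add_re] at h10
      have h11 := (Complex.abs_re_le_norm (∑' γ : {x // x ∉ S}, a γ.1 * mon γ.1 y')).trans h8
      have h12 := (abs_le.1 (h11.trans htailS.le)).2
      linarith
    -- the polynomial
    have h13 : (p.sum fun γ c => c * mon γ y) = (τ : ℂ) * mon e y +
        (∑ γ ∈ S, a γ * mon γ y' + 2 * η) / (1 + 2 * η) := by
      rw [Finsupp.onFinset_sum _ (fun _ => zero_mul _), Finset.sum_insert heS, hfe]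
      congr 1
      have h14 : ∀ γ ∈ S, f γ * mon γ y = (a γ * mon γ y') / (1 + 2 * η) +
          if γ = 0 then (2 * η : ℂ) / (1 + 2 * η) else 0 := by
        intro γ hγ
        rw [hfS γ hγ, mon_smul]
        by_cases h0 : γ = 0
        · subst h0
          simp only [if_true, mon, Pi.zero_apply, pow_zero, Finset.prod_const_one, mul_one]
          push_cast
          ring
        · rw [if_neg h0, if_neg h0]
          ring
      rw [Finset.sum_congr rfl h14, Finset.sum_add_distrib, Finset.sum_ite_eq', if_pos h0S,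
        ← Finset.sum_div, add_div]
    have hmon : ‖mon e y‖ ≤ (n : ℝ) ^ (T + 1) := by
      have h15 : mon e y = y i ^ (T + 1) := by
        unfold mon
        rw [Finset.prod_eq_single i]
        · rw [hei]
        · intro j _ hj
          have : e j = 0 := Pi.single_eq_of_ne hj _
          rw [this, pow_zero]
        · intro h; exact absurd (Finset.mem_univ i) h
      rw [h15, norm_pow]
      refine pow_le_pow_left₀ (norm_nonneg _) ?_ _
      have h16 : ‖y i‖ ^ 2 ≤ ∑ j, ‖y j‖ ^ 2 :=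
        Finset.single_le_sum (f := fun j => ‖y j‖ ^ 2) (fun j _ => by positivity) (Finset.mem_univ i)
      have h17 : (1 : ℝ) ≤ n := by exact_mod_cast hn
      nlinarith [norm_nonneg (y i)]
    have h18 : -δ ≤ ((τ : ℂ) * mon e y).re := by
      rw [Complex.re_ofReal_mul]
      have h19 := (Complex.abs_re_le_norm (mon e y)).trans hmon
      have h20 := (abs_le.1 h19).1
      have h21 : τ * (n : ℝ) ^ (T + 1) = δ := by
        rw [hτ]; field_simp
      nlinarith
    have h22 : ((∑ γ ∈ S, a γ * mon γ y' + 2 * η) / (1 + 2 * η)).re =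
        ((∑ γ ∈ S, a γ * mon γ y').re + 2 * η) / (1 + 2 * η) := by
      have : (1 + 2 * η : ℂ) = ((1 + 2 * η : ℝ) : ℂ) := by push_cast; ring
      rw [this, Complex.div_ofReal_re, Complex.add_re]
      congr 2
      simp
    rw [h13, Complex.add_re, h22]
    have h23 : 2 * δ ≤ ((∑ γ ∈ S, a γ * mon γ y').re + 2 * η) / (1 + 2 * η) := by
      rw [le_div_iff₀ (by positivity), hδ]
      have : 2 * (η / (2 * (1 + 2 * η))) * (1 + 2 * η) = η := by field_simp
      rw [this]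
      linarith
    linarith
  refine ⟨⇑p, ⟨⟨p, rfl, hp0, ⟨δ, hδ0, hre⟩, i, T + 1, Nat.succ_pos _, ?_, ?_⟩, ?_⟩, ?_⟩
  · change f e ≠ 0
    rw [hfe]
    exact_mod_cast hτ0.ne'
  · intro l hl
    refine hf0 _ ?_ ?_
    · intro h
      have := (hmemS _).1 h i
      rw [Pi.add_apply, Pi.single_eq_same] at this
      omega
    · intro h
      have := congrFun h i
      rw [Pi.add_apply, Pi.single_eq_same, hei] at this
      omega
  · refine ⟨hp0, fun y hy => ?_⟩
    obtain ⟨h1, h2⟩ := fn_finsupp p y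
    refine ⟨h1, ?_⟩
    rw [h2]
    exact hδ0.le.trans (hre y hy)
  · intro γ hγ
    exact hfS γ ((hmemS γ).2 fun j => (hγ j).trans hT1)

theorem KB_subset_closure_Good_of (hn : 1 ≤ n) (hp : Pairing n) :
    KB n ⊆ closure (Good n ∩ KB n) := by
  intro a ha
  have hC := KB_subset_CB hp ha
  have hstep : ∀ k : ℕ, ∃ b ∈ Good n ∩ KB n, ∀ γ : Fin n → ℕ, (∀ j, γ j ≤ k) →
      b γ = (a γ * ((∏ j, (1 - 1 / ((k : ℝ) + 2)) ^ γ j : ℝ) : ℂ) +
        if γ = 0 then (2 * ((1 / ((k : ℝ) + 1) : ℝ) : ℂ)) else 0) /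
          (1 + 2 * ((1 / ((k : ℝ) + 1) : ℝ) : ℂ)) := by
    intro k
    refine good_step hn ha hC (s := 1 - 1 / ((k : ℝ) + 2)) (η := 1 / ((k : ℝ) + 1)) ?_ ?_
      (by positivity) k
    · have : 1 / ((k : ℝ) + 2) < 1 := by
        rw [div_lt_one (by positivity)]
        have : (0 : ℝ) ≤ k := Nat.cast_nonneg _
        linarith
      linarith
    · have : 0 < 1 / ((k : ℝ) + 2) := by positivity
      linarith
  choose b hb hbe using hstep
  refine mem_closure_of_tendsto (f := b) (b := atTop) ?_ (Eventually.of_forall hb)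
  rw [tendsto_pi_nhds]
  intro γ
  obtain ⟨K, hK⟩ : ∃ K : ℕ, ∀ j, γ j ≤ K :=
    ⟨Finset.univ.sup γ, fun j => Finset.le_sup (f := γ) (Finset.mem_univ j)⟩
  have h1 : Tendsto (fun k : ℕ => 1 / ((k : ℝ) + 1)) atTop (𝓝 0) :=
    tendsto_one_div_add_atTop_nhds_zero_nat
  have h2 : Tendsto (fun k : ℕ => 1 / ((k : ℝ) + 2)) atTop (𝓝 0) := by
    have := (tendsto_add_atTop_iff_nat (f := fun k : ℕ => 1 / ((k : ℝ) + 1)) 1).2 h1
    refine this.congr fun k => ?_
    push_cast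
    ring_nf
  have h3 : Tendsto (fun k : ℕ => ((∏ j, (1 - 1 / ((k : ℝ) + 2)) ^ γ j : ℝ) : ℂ)) atTop (𝓝 1) := by
    have h4 : Tendsto (fun k : ℕ => (∏ j, (1 - 1 / ((k : ℝ) + 2)) ^ γ j : ℝ)) atTop
        (𝓝 (∏ j, (1 - 0) ^ γ j)) :=
      tendsto_finsetProd _ fun j _ => (tendsto_const_nhds.sub h2).pow _
    have h5 := (Complex.continuous_ofReal.tendsto _).comp h4
    have h6 : ((∏ j, (1 - 0) ^ γ j : ℝ) : ℂ) = 1 := by simp
    rw [h6] at h5
    exact h5
  have h6 : Tendsto (fun k : ℕ => ((1 / ((k : ℝ) + 1) : ℝ) : ℂ)) atTop (𝓝 0) := by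
    have h5 := (Complex.continuous_ofReal.tendsto _).comp h1
    rw [Complex.ofReal_zero] at h5
    exact h5
  have h7 : Tendsto (fun k : ℕ => (a γ * ((∏ j, (1 - 1 / ((k : ℝ) + 2)) ^ γ j : ℝ) : ℂ) +
        if γ = 0 then (2 * ((1 / ((k : ℝ) + 1) : ℝ) : ℂ)) else 0) /
          (1 + 2 * ((1 / ((k : ℝ) + 1) : ℝ) : ℂ))) atTop (𝓝 ((a γ * 1 + 0) / (1 + 2 * 0))) := by
    refine Tendsto.div ((tendsto_const_nhds.mul h3).add ?_)
      (tendsto_const_nhds.add (tendsto_const_nhds.mul h6)) (by norm_num)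
    split_ifs
    · simpa using (tendsto_const_nhds (x := (2 : ℂ))).mul h6
    · exact tendsto_const_nhds
  have h8 : (a γ * 1 + 0) / (1 + 2 * 0) = a γ := by ring
  rw [h8] at h7
  refine h7.congr' ?_
  filter_upwards [eventually_ge_atTop K] with k hk
  exact (hbe k γ fun j => (hK j).trans hk).symm

end H19

end

end Pool.Agent.Lib.MP_6ff8d9_an
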