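import Pool.Agent.Lib.MP_6ff8d9_an_h19.SeriesA
import Pool.Agent.Lib.MP_6ff8d9_an_h19.GoodOf

/-!
# Final forms of compactness and of the density of good polynomials
-/

open Metric Filter Topology

namespace Pool.Agent.Lib.MP_6ff8d9_an

noncomputable section

theorem isCompact_KB {n : ℕ} (hn : 1 ≤ n) : IsCompact (KB n) :=
  H19.isCompact_KB_of hn (H19.pairing n)

/-- T5 -/
theorem KB_subset_closure_Good {n : ℕ} (hn : 2 ≤ n) : KB n ⊆ closure (Good n ∩ KB n) :=
  H19.KB_subset_closure_Good_of (by omega) (H19.pairing n)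

end

end Pool.Agent.Lib.MP_6ff8d9_an
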